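import Pool.Agent.Helper13.TW.StE

/-!
# Project TW: module MD1 (convex bodies in the plane)
-/

set_option autoImplicit false

namespace Pool.Agent.Helper87.TW

open Set Topology Pool.Agent.Helper13.TR Pool.Agent.Helper13.TW

/-! ### the circle -/

private theorem half (s : ℝ) (hs : s * s = 1) : IsArc {z : ℂ | ‖z‖ = 1 ∧ 0 ≤ s * z.im} 1 (-1) := by
  set g : ℝ → ℂ := fun t => ((Real.cos (Real.pi * t) : ℝ) : ℂ) + ((s * Real.sin (Real.pi * t) : ℝ) : ℂ) * Complex.I with hg
  have hre : ∀ t, (g t).re = Real.cos (Real.pi * t) := by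
    intro t
    rw [hg]
    show (((Real.cos (Real.pi * t) : ℝ) : ℂ) + ((s * Real.sin (Real.pi * t) : ℝ) : ℂ) * Complex.I).re = _
    rw [Complex.add_re, Complex.ofReal_re, Complex.re_ofReal_mul, Complex.I_re, mul_zero, add_zero]
  have him : ∀ t, (g t).im = s * Real.sin (Real.pi * t) := by
    intro t
    rw [hg]
    show (((Real.cos (Real.pi * t) : ℝ) : ℂ) + ((s * Real.sin (Real.pi * t) : ℝ) : ℂ) * Complex.I).im = _
    rw [Complex.add_im, Complex.ofReal_im, Complex.im_ofReal_mul, Complex.I_im, mul_one, zero_add]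
  have hgc : Continuous g := by fun_prop
  refine ⟨⟨⟨fun t : unitInterval => g t, hgc.comp continuous_subtype_val⟩, ?_, ?_⟩, ?_, ?_⟩
  · show g ((0 : unitInterval) : ℝ) = 1
    apply Complex.ext
    · rw [hre]; simp
    · rw [him]; simp
  · show g ((1 : unitInterval) : ℝ) = -1
    apply Complex.ext
    · rw [hre]; simp
    · rw [him]; simp
  · intro a b hab
    have hab' : g a = g b := hab
    have h1 := congrArg Complex.re hab'
    rw [hre, hre] at h1
    have ha : Real.pi * (a : ℝ) ∈ Icc 0 Real.pi := by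
      refine ⟨mul_nonneg Real.pi_pos.le a.2.1, ?_⟩
      have := mul_le_mul_of_nonneg_left a.2.2 Real.pi_pos.le
      linarith
    have hb : Real.pi * (b : ℝ) ∈ Icc 0 Real.pi := by
      refine ⟨mul_nonneg Real.pi_pos.le b.2.1, ?_⟩
      have := mul_le_mul_of_nonneg_left b.2.2 Real.pi_pos.le
      linarith
    have h2 := Real.injOn_cos ha hb h1
    exact Subtype.ext (mul_left_cancel₀ Real.pi_pos.ne' h2)
  · ext z
    constructor
    · rintro ⟨a, rfl⟩
      show ‖g a‖ = 1 ∧ 0 ≤ s * (g a).im
      constructor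
      · have h1 : ‖g a‖ ^ 2 = 1 := by
          rw [← Complex.normSq_eq_norm_sq, Complex.normSq_apply, hre, him]
          have h2 := Real.sin_sq_add_cos_sq (Real.pi * (a : ℝ))
          nlinarith
        nlinarith [norm_nonneg (g a)]
      · rw [him, ← mul_assoc, hs, one_mul]
        apply Real.sin_nonneg_of_nonneg_of_le_pi (mul_nonneg Real.pi_pos.le a.2.1)
        have := mul_le_mul_of_nonneg_left a.2.2 Real.pi_pos.le
        linarith
    · rintro ⟨h1, h2⟩
      have h3 : z.re ^ 2 + z.im ^ 2 = 1 := by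
        have := Complex.normSq_eq_norm_sq z
        rw [h1, Complex.normSq_apply] at this
        nlinarith
      have h4 : -1 ≤ z.re ∧ z.re ≤ 1 := by
        constructor <;> nlinarith [sq_nonneg z.im]
      have h5 : Real.arccos z.re / Real.pi ∈ unitInterval := by
        constructor
        · exact div_nonneg (Real.arccos_nonneg _) Real.pi_pos.le
        · rw [div_le_one Real.pi_pos]
          exact Real.arccos_le_pi _
      refine ⟨⟨Real.arccos z.re / Real.pi, h5⟩, ?_⟩
      show g (Real.arccos z.re / Real.pi) = z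
      have h6 : Real.pi * (Real.arccos z.re / Real.pi) = Real.arccos z.re := by
        field_simp
      apply Complex.ext
      · rw [hre, h6, Real.cos_arccos h4.1 h4.2]
      · rw [him, h6, Real.sin_arccos]
        have h7 : 1 - z.re ^ 2 = (s * z.im) ^ 2 := by
          have : (s * z.im) ^ 2 = (s * s) * z.im ^ 2 := by ring
          rw [this, hs]
          linarith
        rw [h7, Real.sqrt_sq h2, ← mul_assoc, hs, one_mul]

private theorem circ : IsSCC (Metric.sphere (0 : ℂ) 1) := by
  refine ⟨1, -1, _, _, half 1 (by norm_num), half (-1) (by norm_num), ?_, ?_⟩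
  · ext z
    simp only [mem_inter_iff, mem_setOf_eq, mem_insert_iff, mem_singleton_iff]
    constructor
    · rintro ⟨⟨h1, h2⟩, -, h3⟩
      have h4 : z.im = 0 := by linarith
      have h5 : z.re ^ 2 = 1 := by
        have := Complex.normSq_eq_norm_sq z
        rw [h1, Complex.normSq_apply, h4] at this
        nlinarith
      have h5' : (z.re - 1) * (z.re + 1) = 0 := by linear_combination h5
      rcases mul_eq_zero.1 h5' with h6 | h6
      · left
        apply Complex.ext
        · rw [Complex.one_re]; linarith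
        · rw [Complex.one_im]; exact h4
      · right
        apply Complex.ext
        · rw [Complex.neg_re, Complex.one_re]; linarith
        · rw [Complex.neg_im, Complex.one_im, neg_zero]; exact h4
    · rintro (rfl | rfl) <;> simp
  · ext z
    simp only [mem_union, mem_setOf_eq, mem_sphere_iff_norm, sub_zero]
    constructor
    · rintro (h | h) <;> exact h.1
    · intro h
      rcases le_total 0 z.im with h1 | h1
      · left; exact ⟨h, by linarith⟩
      · right; exact ⟨h, by linarith⟩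

/-! ### convex bodies are discs -/

private theorem mcell {C : Set ℂ} (hC : IsCompact C) (hcv : Convex ℝ C) (hne : (interior C).Nonempty) :
    MCell C (frontier C) := by
  obtain ⟨h, -, h2, h3⟩ := exists_homeomorph_image_interior_closure_frontier_eq_unitBall hcv hne hC.isBounded
  rw [hC.isClosed.closure_eq] at h2
  refine ⟨h.symm, ?_, ?_⟩
  · rw [← h2, ← image_comp]
    simp
  · rw [← h3, ← image_comp]
    simp

private theorem scc_frontier (hSCL : StSCL) {C : Set ℂ} (hC : IsCompact C) (hcv : Convex ℝ C)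
    (hne : (interior C).Nonempty) : IsSCC (frontier C) := by
  obtain ⟨h, -, h2⟩ := mcell hC hcv hne
  rw [← h2]
  exact (hSCL ℂ _ circ).2.2.2.1 ℂ h h.continuous.continuousOn h.injective.injOn

/-! ### the cut -/

private theorem fz (f : ℂ →ₗ[ℝ] ℝ) (z : ℂ) : f z = z.re * f 1 + z.im * f Complex.I := by
  have h : z = z.re • (1 : ℂ) + z.im • Complex.I := by
    apply Complex.ext <;> simp
  conv_lhs => rw [h]
  rw [map_add, map_smul, map_smul, smul_eq_mul, smul_eq_mul]

private theorem cut {C : Set ℂ} (hC : IsCompact C) (hcv : Convex ℝ C) (hne : (interior C).Nonempty)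
    (f : ℂ →ₗ[ℝ] ℝ) (t : ℝ) (hu : ∃ u ∈ C, f u < t) (hv : ∃ v ∈ C, t < f v) :
    IsOpenMap f ∧ (∃ u ∈ interior C, f u < t) ∧ (∃ v ∈ interior C, t < f v) ∧
    ∃ p q : ℂ, p ∈ C ∧ q ∈ C ∧ f p = t ∧ f q = t ∧ p ≠ q ∧ IsArc (C ∩ {z | f z = t}) p q ∧
      (C ∩ {z | f z = t}) ∩ frontier C = {p, q} := by
  obtain ⟨u, hu, hut⟩ := hu
  obtain ⟨v, hv, hvt⟩ := hv
  have hfc : Continuous f := f.continuous_of_finiteDimensional
  have hf0 : LinearMap.toContinuousLinearMap f ≠ 0 := by
    intro h
    have h1 : ∀ z, f z = 0 := fun z => by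
      have := DFunLike.congr_fun h z
      simpa using this
    rw [h1] at hut hvt
    linarith
  have hop : IsOpenMap f := ContinuousLinearMap.isOpenMap_of_ne_zero (LinearMap.toContinuousLinearMap f) hf0
  have hcl : closure (interior C) = C :=
    (hcv.closure_interior_eq_closure_of_nonempty_interior hne).trans hC.isClosed.closure_eq
  have hu' : ∃ u ∈ interior C, f u < t := by
    have h1 : u ∈ closure (interior C) := by rw [hcl]; exact hu
    obtain ⟨z, hz1, hz2⟩ := mem_closure_iff.1 h1 {z | f z < t} (isOpen_lt hfc continuous_const) hut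
    exact ⟨z, hz2, hz1⟩
  have hv' : ∃ v ∈ interior C, t < f v := by
    have h1 : v ∈ closure (interior C) := by rw [hcl]; exact hv
    obtain ⟨z, hz1, hz2⟩ := mem_closure_iff.1 h1 {z | t < f z} (isOpen_lt continuous_const hfc) hvt
    exact ⟨z, hz2, hz1⟩
  refine ⟨hop, hu', hv', ?_⟩
  obtain ⟨u', hu1, hu2⟩ := hu'
  obtain ⟨v', hv1, hv2⟩ := hv'
  -- an interior point on the line
  obtain ⟨w₀, hw1, hw2⟩ : ∃ w ∈ interior C, f w = t := by
    have hd : 0 < f v' - f u' := by linarith
    set lam := (t - f u') / (f v' - f u') with hlam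
    have l0 : 0 ≤ lam := div_nonneg (by linarith) hd.le
    have l1 : lam ≤ 1 := by rw [hlam, div_le_one hd]; linarith
    refine ⟨(1 - lam) • u' + lam • v', hcv.interior hu1 hv1 (by linarith) l0 (by ring), ?_⟩
    rw [map_add, map_smul, map_smul, smul_eq_mul, smul_eq_mul]
    have : lam * (f v' - f u') = t - f u' := by rw [hlam, div_mul_cancel₀ _ hd.ne']
    linarith
  set a := f 1 with ha
  set b := f Complex.I with hb
  have hN : 0 < a ^ 2 + b ^ 2 := by
    rcases eq_or_ne a 0 with h1 | h1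
    · rcases eq_or_ne b 0 with h2 | h2
      · exfalso
        have h3 := fz f u
        have h4 := fz f v
        rw [← ha, ← hb, h1, h2] at h3 h4
        linarith
      · positivity
    · positivity
  set L : ℝ → ℂ := fun s => ⟨w₀.re + s * b, w₀.im - s * a⟩ with hL
  have hLc : Continuous L := by
    have : L = fun s : ℝ => ((w₀.re + s * b : ℝ) : ℂ) + ((w₀.im - s * a : ℝ) : ℂ) * Complex.I := by
      funext s
      apply Complex.ext <;> simp [hL]
    rw [this]
    fun_prop
  have hLf : ∀ s, f (L s) = t := by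
    intro s
    rw [← hw2, fz f (L s), fz f w₀]
    show (w₀.re + s * b) * a + (w₀.im - s * a) * b = w₀.re * a + w₀.im * b
    ring
  set Sf : ℂ → ℝ := fun z => ((z.re - w₀.re) * b - (z.im - w₀.im) * a) / (a ^ 2 + b ^ 2) with hSf
  have hSc : Continuous Sf := by
    rw [hSf]
    have h1 := Complex.continuous_re
    have h2 := Complex.continuous_im
    fun_prop
  have hSL : ∀ s, Sf (L s) = s := by
    intro s
    show ((w₀.re + s * b - w₀.re) * b - (w₀.im - s * a - w₀.im) * a) / (a ^ 2 + b ^ 2) = s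
    rw [div_eq_iff hN.ne']
    ring
  have hLS : ∀ z, f z = t → L (Sf z) = z := by
    intro z hz
    have h1 : (z.re - w₀.re) * a + (z.im - w₀.im) * b = 0 := by
      have h2 := fz f z
      have h3 := fz f w₀
      rw [hz] at h2
      rw [hw2] at h3
      rw [← ha, ← hb] at h2 h3
      linarith
    apply Complex.ext
    · show w₀.re + ((z.re - w₀.re) * b - (z.im - w₀.im) * a) / (a ^ 2 + b ^ 2) * b = z.re
      rw [div_mul_eq_mul_div, add_div' _ _ _ hN.ne', div_eq_iff hN.ne']
      linear_combination (-a) * h1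
    · show w₀.im - ((z.re - w₀.re) * b - (z.im - w₀.im) * a) / (a ^ 2 + b ^ 2) * a = z.im
      rw [div_mul_eq_mul_div, sub_div' hN.ne', div_eq_iff hN.ne']
      linear_combination (-b) * h1
  -- the interval
  set P : Set ℂ := C ∩ {z | f z = t} with hP
  have hPcl : IsClosed {z : ℂ | f z = t} := isClosed_eq hfc continuous_const
  have hPc : IsCompact P := hC.inter_right hPcl
  have hPv : Convex ℝ P := hcv.inter (by
    intro x hx y hy c d hc hd hcd
    show f (c • x + d • y) = t
    rw [map_add, map_smul, map_smul, smul_eq_mul, smul_eq_mul]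
    have hx' : f x = t := hx
    have hy' : f y = t := hy
    rw [hx', hy', ← add_mul, hcd, one_mul])
  have hw₀P : w₀ ∈ P := ⟨interior_subset hw1, hw2⟩
  set I : Set ℝ := Sf '' P with hI
  have hIc : IsCompact I := hPc.image hSc
  have hIcon : IsConnected I := (IsConnected.image ⟨⟨w₀, hw₀P⟩, hPv.isPreconnected⟩ Sf hSc.continuousOn)
  have hIeq := eq_Icc_of_connected_compact hIcon hIc
  set s₀ := sInf I with hs₀
  set s₁ := sSup I with hs₁
  have hmemI : ∀ s, s ∈ I ↔ L s ∈ C := by
    intro s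
    constructor
    · rintro ⟨z, hz, rfl⟩
      rw [hLS z hz.2]
      exact hz.1
    · intro h
      exact ⟨L s, ⟨h, hLf s⟩, hSL s⟩
  have hIcc : ∀ s, L s ∈ C ↔ s₀ ≤ s ∧ s ≤ s₁ := by
    intro s
    rw [← hmemI, hIeq]
    rfl
  -- near a parameter with interior value
  have hnear : ∀ s, L s ∈ interior C → s₀ < s ∧ s < s₁ := by
    intro s hs
    have h1 : IsOpen (L ⁻¹' interior C) := isOpen_interior.preimage hLc
    obtain ⟨ε, hε, hball⟩ := Metric.isOpen_iff.1 h1 s hs
    have h2 : s - ε / 2 ∈ Metric.ball s ε := by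
      rw [Metric.mem_ball, Real.dist_eq]
      have : s - ε / 2 - s = -(ε / 2) := by ring
      rw [this, abs_neg, abs_of_pos (by linarith)]
      linarith
    have h3 : s + ε / 2 ∈ Metric.ball s ε := by
      rw [Metric.mem_ball, Real.dist_eq]
      have : s + ε / 2 - s = ε / 2 := by ring
      rw [this, abs_of_pos (by linarith)]
      linarith
    have h4 := ((hIcc _).1 (interior_subset (hball h2))).1
    have h5 := ((hIcc _).1 (interior_subset (hball h3))).2
    constructor <;> linarith
  have hL0 : L 0 = w₀ := by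
    apply Complex.ext <;> simp [hL]
  have h0 := hnear 0 (by rw [hL0]; exact hw1)
  have hs01 : s₀ < s₁ := h0.1.trans h0.2
  have hps : L s₀ ∈ C := (hIcc s₀).2 ⟨le_rfl, hs01.le⟩
  have hqs : L s₁ ∈ C := (hIcc s₁).2 ⟨hs01.le, le_rfl⟩
  have hLinj : Function.Injective L := fun x y h => by rw [← hSL x, ← hSL y, h]
  have hpq : L s₀ ≠ L s₁ := fun h => hs01.ne (hLinj h)
  refine ⟨L s₀, L s₁, hps, hqs, hLf _, hLf _, hpq, ?_, ?_⟩
  · -- the arc
    set g : ℝ → ℂ := fun τ => L (s₀ + τ * (s₁ - s₀)) with hg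
    have hgc : Continuous g := hLc.comp (by fun_prop)
    refine ⟨⟨⟨fun τ : unitInterval => g τ, hgc.comp continuous_subtype_val⟩, ?_, ?_⟩, ?_, ?_⟩
    · show L (s₀ + ((0 : unitInterval) : ℝ) * (s₁ - s₀)) = L s₀
      simp
    · show L (s₀ + ((1 : unitInterval) : ℝ) * (s₁ - s₀)) = L s₁
      simp
    · intro x y hxy
      have h1 : L (s₀ + (x : ℝ) * (s₁ - s₀)) = L (s₀ + (y : ℝ) * (s₁ - s₀)) := hxy
      have h2 := hLinj h1
      have h3 : (x : ℝ) * (s₁ - s₀) = (y : ℝ) * (s₁ - s₀) := by linarith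
      exact Subtype.ext (mul_right_cancel₀ (by linarith) h3)
    · ext z
      constructor
      · rintro ⟨τ, rfl⟩
        show L (s₀ + (τ : ℝ) * (s₁ - s₀)) ∈ P
        refine ⟨(hIcc _).2 ⟨?_, ?_⟩, hLf _⟩
        · have := mul_nonneg τ.2.1 (by linarith : 0 ≤ s₁ - s₀)
          linarith
        · have := mul_le_mul_of_nonneg_right τ.2.2 (by linarith : 0 ≤ s₁ - s₀)
          linarith
      · rintro ⟨h1, h2⟩
        have h3 : s₀ ≤ Sf z ∧ Sf z ≤ s₁ := by
          rw [← hIcc, hLS z h2]
          exact h1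
        have hd : 0 < s₁ - s₀ := by linarith
        refine ⟨⟨(Sf z - s₀) / (s₁ - s₀), ⟨div_nonneg (by linarith) hd.le, ?_⟩⟩, ?_⟩
        · rw [div_le_one hd]
          linarith
        · show L (s₀ + (Sf z - s₀) / (s₁ - s₀) * (s₁ - s₀)) = z
          rw [div_mul_cancel₀ _ hd.ne']
          rw [show s₀ + (Sf z - s₀) = Sf z by ring]
          exact hLS z h2
  · -- the frontier
    rw [hC.isClosed.frontier_eq]
    ext z
    constructor
    · rintro ⟨⟨h1, h2⟩, -, h3⟩
      have h4 : s₀ ≤ Sf z ∧ Sf z ≤ s₁ := by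
        rw [← hIcc, hLS z h2]
        exact h1
      have h5 : L (Sf z) = z := hLS z h2
      by_contra hne2
      simp only [mem_insert_iff, mem_singleton_iff, not_or] at hne2
      have h6 : s₀ < Sf z := lt_of_le_of_ne h4.1 (fun h => hne2.1 (by rw [h, h5]))
      have h7 : Sf z < s₁ := lt_of_le_of_ne h4.2 (fun h => hne2.2 (by rw [← h, h5]))
      apply h3
      rcases le_or_gt 0 (Sf z) with h8 | h8
      · have hc1 : 0 < 1 - Sf z / s₁ := by
          have : Sf z / s₁ < 1 := (div_lt_one h0.2).2 h7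
          linarith
        have h9 := hcv.combo_interior_self_mem_interior hw1 hqs hc1 (div_nonneg h8 h0.2.le) (by ring)
        have h10 : (1 - Sf z / s₁) • w₀ + (Sf z / s₁) • L s₁ = L (Sf z) := by
          have hne3 : s₁ ≠ 0 := h0.2.ne'
          apply Complex.ext
          · simp only [Complex.add_re, Complex.real_smul, Complex.re_ofReal_mul, hL]
            field_simp
            ring
          · simp only [Complex.add_im, Complex.real_smul, Complex.im_ofReal_mul, hL]
            field_simp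
            ring
        rw [h10, h5] at h9
        exact h9
      · have hc1 : 0 < 1 - Sf z / s₀ := by
          have : Sf z / s₀ < 1 := by
            rw [div_lt_one_of_neg h0.1]
            exact h6
          linarith
        have h9 := hcv.combo_interior_self_mem_interior hw1 hps hc1 (div_nonneg_of_nonpos h8.le h0.1.le) (by ring)
        have h10 : (1 - Sf z / s₀) • w₀ + (Sf z / s₀) • L s₀ = L (Sf z) := by
          have hne3 : s₀ ≠ 0 := h0.1.ne
          apply Complex.ext
          · simp only [Complex.add_re, Complex.real_smul, Complex.re_ofReal_mul, hL]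
            field_simp
            ring
          · simp only [Complex.add_im, Complex.real_smul, Complex.im_ofReal_mul, hL]
            field_simp
            ring
        rw [h10, h5] at h9
        exact h9
    · rintro (rfl | rfl)
      · exact ⟨⟨hps, hLf _⟩, hps, fun h => lt_irrefl _ (hnear _ h).1⟩
      · exact ⟨⟨hqs, hLf _⟩, hqs, fun h => lt_irrefl _ (hnear _ h).2⟩

theorem hMD1 (_hARB : StARB) (hSCL : StSCL) : StMD1 := by
  refine ⟨circ, fun C hC hcv hne => mcell hC hcv hne, ?_⟩
  intro C hC hcv hne f t hu hv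
  obtain ⟨hop, ⟨u', hu1, hu2⟩, ⟨v', hv1, hv2⟩, p, q, hpC, hqC, hpt, hqt, hpq, harc, hPF⟩ := cut hC hcv hne f t hu hv
  have hfc : Continuous f := f.continuous_of_finiteDimensional
  have hFC : frontier C ⊆ C := hC.isClosed.frontier_subset
  have hFcl : IsClosed (frontier C) := isClosed_frontier
  have hle : IsClosed {z : ℂ | f z ≤ t} := isClosed_le hfc continuous_const
  have hge : IsClosed {z : ℂ | t ≤ f z} := isClosed_le continuous_const hfc
  have hIle : interior {z : ℂ | f z ≤ t} = {z | f z < t} := by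
    have := hop.preimage_interior_eq_interior_preimage hfc (Iic t)
    rw [interior_Iic] at this
    exact this.symm
  have hIge : interior {z : ℂ | t ≤ f z} = {z | t < f z} := by
    have := hop.preimage_interior_eq_interior_preimage hfc (Ici t)
    rw [interior_Ici] at this
    exact this.symm
  have hi1 : interior (C ∩ {z | f z ≤ t}) = interior C ∩ {z | f z < t} := by
    rw [interior_inter, hIle]
  have hi2 : interior (C ∩ {z | t ≤ f z}) = interior C ∩ {z | t < f z} := by
    rw [interior_inter, hIge]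
  have hfr : frontier C = C \ interior C := hC.isClosed.frontier_eq
  -- points on both sides in the frontier
  have hm1 : ∃ m ∈ frontier C, f m < t := by
    obtain ⟨m, hm, hmin⟩ := hC.exists_isMinOn ⟨u', interior_subset hu1⟩ hfc.continuousOn
    refine ⟨m, ?_, lt_of_le_of_lt (hmin (interior_subset hu1)) hu2⟩
    rw [hfr]
    refine ⟨hm, fun hmi => ?_⟩
    have h1 : IsOpen (f '' interior C) := hop _ isOpen_interior
    obtain ⟨ε, hε, hball⟩ := Metric.isOpen_iff.1 h1 (f m) ⟨m, hmi, rfl⟩
    have h2 : f m - ε / 2 ∈ Metric.ball (f m) ε := by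
      rw [Metric.mem_ball, Real.dist_eq]
      have : f m - ε / 2 - f m = -(ε / 2) := by ring
      rw [this, abs_neg, abs_of_pos (by linarith)]
      linarith
    obtain ⟨z, hz, hz2⟩ := hball h2
    have h3 : f m ≤ f z := hmin (interior_subset hz)
    linarith
  have hm2 : ∃ m ∈ frontier C, t < f m := by
    obtain ⟨m, hm, hmax⟩ := hC.exists_isMaxOn ⟨u', interior_subset hu1⟩ hfc.continuousOn
    refine ⟨m, ?_, lt_of_lt_of_le hv2 (hmax (interior_subset hv1))⟩
    rw [hfr]
    refine ⟨hm, fun hmi => ?_⟩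
    have h1 : IsOpen (f '' interior C) := hop _ isOpen_interior
    obtain ⟨ε, hε, hball⟩ := Metric.isOpen_iff.1 h1 (f m) ⟨m, hmi, rfl⟩
    have h2 : f m + ε / 2 ∈ Metric.ball (f m) ε := by
      rw [Metric.mem_ball, Real.dist_eq]
      have : f m + ε / 2 - f m = ε / 2 := by ring
      rw [this, abs_of_pos (by linarith)]
      linarith
    obtain ⟨z, hz, hz2⟩ := hball h2
    have h3 : f z ≤ f m := hmax (interior_subset hz)
    linarith
  obtain ⟨m₁, hm1F, hm1t⟩ := hm1
  obtain ⟨m₂, hm2F, hm2t⟩ := hm2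
  have hpF : p ∈ frontier C := by
    have : p ∈ C ∩ {z | f z = t} ∩ frontier C := by rw [hPF]; simp
    exact this.2
  have hqF : q ∈ frontier C := by
    have : q ∈ C ∩ {z | f z = t} ∩ frontier C := by rw [hPF]; simp
    exact this.2
  have hJ := scc_frontier hSCL hC hcv hne
  obtain ⟨D₁, D₂, hspl⟩ := (hSCL ℂ _ hJ).1 p hpF q hqF hpq
  have hY := (hSCL ℂ _ hJ).2.1 p q D₁ D₂ (frontier C ∩ {z | f z ≤ t}) (frontier C ∩ {z | t ≤ f z}) hspl
    (hFcl.inter hle) (hFcl.inter hge)
    (by
      ext z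
      constructor
      · rintro (h | h) <;> exact h.1
      · intro h
        rcases le_total (f z) t with h1 | h1
        · exact Or.inl ⟨h, h1⟩
        · exact Or.inr ⟨h, h1⟩)
    (by
      rw [← hPF]
      ext z
      constructor
      · rintro ⟨⟨h1, h2⟩, -, h3⟩
        exact ⟨⟨hFC h1, le_antisymm h2 h3⟩, h1⟩
      · rintro ⟨⟨-, h2⟩, h3⟩
        have h2' : f z = t := h2
        exact ⟨⟨h3, h2'.le⟩, h3, h2'.ge⟩)
    (by
      refine ⟨m₁, ⟨hm1F, hm1t.le⟩, ?_⟩
      rintro (rfl | h)
      · linarith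
      · rw [mem_singleton_iff] at h
        rw [h] at hm1t
        linarith)
    (by
      refine ⟨m₂, ⟨hm2F, hm2t.le⟩, ?_⟩
      rintro (rfl | h)
      · linarith
      · rw [mem_singleton_iff] at h
        rw [h] at hm2t
        linarith)
  have hspl' : Spl (frontier C) p q (frontier C ∩ {z | f z ≤ t}) (frontier C ∩ {z | t ≤ f z}) := by
    rcases hY with ⟨h1, h2⟩ | ⟨h1, h2⟩
    · rw [h1, h2]; exact hspl
    · rw [h1, h2]
      obtain ⟨x1, x2, x3, x4⟩ := hspl
      exact ⟨x2, x1, by rw [inter_comm]; exact x3, by rw [union_comm]; exact x4⟩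
  refine ⟨by rw [hi1]; exact ⟨u', hu1, hu2⟩, by rw [hi2]; exact ⟨v', hv1, hv2⟩, p, q,
    frontier C ∩ {z | f z ≤ t}, frontier C ∩ {z | t ≤ f z}, ⟨hspl', harc, hPF, ?_, ?_, ?_, ?_⟩, ?_, ?_⟩
  · ext z
    constructor
    · rintro (h | h) <;> exact h.1
    · intro h
      rcases le_total (f z) t with h1 | h1
      · exact Or.inl ⟨h, h1⟩
      · exact Or.inr ⟨h, h1⟩
  · ext z
    constructor
    · rintro ⟨⟨h1, h2⟩, -, h3⟩
      exact ⟨h1, le_antisymm h2 h3⟩
    · rintro ⟨h1, h2⟩
      have h2' : f z = t := h2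
      exact ⟨⟨h1, h2'.le⟩, h1, h2'.ge⟩
  · ext z
    constructor
    · rintro ⟨⟨-, h2⟩, h3⟩
      exact ⟨h3, h2⟩
    · rintro ⟨h1, h2⟩
      exact ⟨⟨hFC h1, h2⟩, h1⟩
  · ext z
    constructor
    · rintro ⟨⟨-, h2⟩, h3⟩
      exact ⟨h3, h2⟩
    · rintro ⟨h1, h2⟩
      exact ⟨⟨hFC h1, h2⟩, h1⟩
  · rw [(hC.isClosed.inter hle).frontier_eq, hi1, hfr]
    ext z
    constructor
    · rintro ⟨⟨h1, h2⟩, h3⟩
      by_cases h4 : z ∈ interior C
      · right
        refine ⟨h1, le_antisymm h2 (not_lt.1 fun h5 => h3 ⟨h4, h5⟩)⟩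
      · exact Or.inl ⟨⟨h1, h4⟩, h2⟩
    · rintro (⟨⟨h1, h2⟩, h3⟩ | ⟨h1, h2⟩)
      · exact ⟨⟨h1, h3⟩, fun h4 => h2 h4.1⟩
      · have h2' : f z = t := h2
        exact ⟨⟨h1, h2'.le⟩, fun h4 => (ne_of_lt h4.2) h2'⟩
  · rw [(hC.isClosed.inter hge).frontier_eq, hi2, hfr]
    ext z
    constructor
    · rintro ⟨⟨h1, h2⟩, h3⟩
      by_cases h4 : z ∈ interior C
      · right
        refine ⟨h1, le_antisymm (not_lt.1 fun h5 => h3 ⟨h4, h5⟩) h2⟩
      · exact Or.inl ⟨⟨h1, h4⟩, h2⟩
    · rintro (⟨⟨h1, h2⟩, h3⟩ | ⟨h1, h2⟩)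
      · exact ⟨⟨h1, h3⟩, fun h4 => h2 h4.1⟩
      · have h2' : f z = t := h2
        exact ⟨⟨h1, h2'.ge⟩, fun h4 => (ne_of_gt h4.2) h2'⟩

end Pool.Agent.Helper87.TW
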