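import Pool.Agent.Helper31.TW.St3

set_option autoImplicit false

namespace Pool.Agent.Helper87.TW

open Pool.Agent.Helper31.TW

theorem clip_clip (K0 K : ℕ) (h : K0 ≤ K) (z : ℤ) : clip K0 (clip K z) = clip K0 z := by
  unfold clip
  have h' : (K0 : ℤ) ≤ K := by exact_mod_cast h
  have h0 : (0 : ℤ) ≤ K0 := by positivity
  rcases le_total z (-(K : ℤ)) with h1 | h1
  · rw [min_eq_right (by omega : z ≤ (K : ℤ)), max_eq_left h1, min_eq_right (by omega),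
      max_eq_left (by omega), min_eq_right (by omega), max_eq_left (by omega)]
  · rcases le_total z (K : ℤ) with h2 | h2
    · rw [min_eq_right h2, max_eq_right h1]
    · rw [min_eq_left h2, max_eq_right (by omega : -(K : ℤ) ≤ K), min_eq_left h',
        min_eq_left (by omega : (K0 : ℤ) ≤ z)]

theorem clip_mem (K : ℕ) (z : ℤ) : clip K z ∈ Set.Icc (-(K : ℤ)) (K : ℤ) := by
  unfold clip
  constructor
  · exact le_max_left _ _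
  · have : (0 : ℤ) ≤ K := by positivity
    exact max_le (by omega) (min_le_left _ _)

theorem hASM (hGEO : StGEO) (hCRP : StCRP) : StASM := by
  classical
  intro n S hS I a
  obtain ⟨D, hD, hρ⟩ := hS I a
  choose K0 E hE1 hE2 hdep using hρ
  have hgeo : ∀ ρ : Fin n → ℕ, ∃ K2 : ℕ, max (K0 ρ) 1 ≤ K2 ∧ ∀ x0 : Fin n → ℕ, (∀ i ∈ I, K2 ≤ x0 i) →
    ∃ A : Finset ((Fin n → ℤ) × ℤ), (∀ p ∈ A, ∀ i, i ∉ I → p.1 i = 0) ∧
      (∀ p ∈ A, ∀ q ∈ A, p ≠ q → ∀ t : Fin n → ℕ, (∀ i, i ∉ I → t i = 0) →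
        ¬ (frm p.1 t < 0 ∧ frm q.1 t < 0)) ∧
      ∀ x : Fin n → ℕ, (∀ i ∈ I, K2 ≤ x i) →
        ((∀ α ∈ E ρ, clip (max (K0 ρ) 1) (frm α x) = clip (max (K0 ρ) 1) (frm α x0)) ↔
          ∀ p ∈ A, p.2 ≤ frm p.1 x) := by
    intro ρ
    exact hGEO n I (E ρ) (max (K0 ρ) 1) (le_max_right _ _) (hE2 ρ) (hE1 ρ)
  choose K2 hK2 hA using hgeo
  -- the sets
  let X : (Fin n → ℕ) → (Fin n → ℕ) → Set (Fin n → ℕ) := fun ρ x0 =>
    {x | (∀ i, i ∉ I → x i = a i) ∧ (∀ i ∈ I, K2 ρ ≤ x i ∧ x i % D = ρ i % D) ∧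
      ∀ α ∈ E ρ, clip (max (K0 ρ) 1) (frm α x) = clip (max (K0 ρ) 1) (frm α x0)}
  let P : Finset (Fin n → ℕ) := Fintype.piFinset fun _ => Finset.range D
  let 𝒟 : Set (Set (Fin n → ℕ)) := {C | ∃ ρ ∈ P, ∃ x0 ∈ S, x0 ∈ X ρ x0 ∧ C = X ρ x0}
  refine ⟨P.sup K2, 𝒟, ?_, ?_, ?_⟩
  · -- finite
    have h1 : 𝒟 ⊆ ⋃ ρ ∈ (P : Set (Fin n → ℕ)), Set.range (fun v : {α // α ∈ E ρ} →
        Set.Icc (-((max (K0 ρ) 1 : ℕ) : ℤ)) ((max (K0 ρ) 1 : ℕ) : ℤ) =>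
        {x : Fin n → ℕ | (∀ i, i ∉ I → x i = a i) ∧ (∀ i ∈ I, K2 ρ ≤ x i ∧ x i % D = ρ i % D) ∧
          ∀ α : {α // α ∈ E ρ}, clip (max (K0 ρ) 1) (frm α.1 x) = (v α : ℤ)}) := by
      rintro C ⟨ρ, hρ, x0, -, -, rfl⟩
      refine Set.mem_iUnion₂.mpr ⟨ρ, hρ, fun α => ⟨clip (max (K0 ρ) 1) (frm α.1 x0), clip_mem _ _⟩, ?_⟩
      ext x
      simp only [Set.mem_ofPred_eq, X]
      constructor
      · rintro ⟨h1, h2, h3⟩; exact ⟨h1, h2, fun α hα => h3 ⟨α, hα⟩⟩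
      · rintro ⟨h1, h2, h3⟩; exact ⟨h1, h2, fun α => h3 α.1 α.2⟩
    refine Set.Finite.subset (Set.Finite.biUnion P.finite_toSet fun ρ _ => ?_) h1
    have : Finite (Set.Icc (-((max (K0 ρ) 1 : ℕ) : ℤ)) ((max (K0 ρ) 1 : ℕ) : ℤ)) :=
      (Set.finite_Icc _ _).to_subtype
    exact Set.finite_range _
  · rintro C ⟨ρ, hρ, x0, hx0S, hx0, rfl⟩
    constructor
    · obtain ⟨A, hA1, hA2, hA3⟩ := hA ρ x0 (fun i hi => (hx0.2.1 i hi).1)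
      have h1 : X ρ x0 = {x : Fin n → ℕ | (∀ i, i ∉ I → x i = a i) ∧
          (∀ i ∈ I, K2 ρ ≤ x i ∧ x i % D = ρ i % D) ∧ ∀ p ∈ A, p.2 ≤ frm p.1 x} := by
        ext x
        simp only [Set.mem_ofPred_eq, X]
        constructor
        · rintro ⟨h1, h2, h3⟩
          exact ⟨h1, h2, (hA3 x (fun i hi => (h2 i hi).1)).1 h3⟩
        · rintro ⟨h1, h2, h3⟩
          exact ⟨h1, h2, (hA3 x (fun i hi => (h2 i hi).1)).2 h3⟩
      rw [h1]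
      exact hCRP n I a ρ D (K2 ρ) A hD hA2
    · intro x hx
      have hK : K0 ρ ≤ K2 ρ := le_trans (le_max_left _ _) (hK2 ρ)
      refine (hdep ρ x x0 (fun i hi => ⟨hx.1 i hi, hx0.1 i hi⟩) (fun i hi => ?_) (fun α hα => ?_)).2 hx0S
      · obtain ⟨h1, h2⟩ := hx.2.1 i hi
        obtain ⟨h3, h4⟩ := hx0.2.1 i hi
        exact ⟨le_trans hK h1, le_trans hK h3, h2, h4⟩
      · have := congrArg (clip (K0 ρ)) (hx.2.2 α hα)
        rwa [clip_clip _ _ (le_max_left _ _), clip_clip _ _ (le_max_left _ _)] at this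
  · intro x hxS hxa hxK
    let ρ : Fin n → ℕ := fun i => x i % D
    have hρP : ρ ∈ P := by
      simp only [P, Fintype.mem_piFinset, Finset.mem_range]
      exact fun i => Nat.mod_lt _ hD
    have hle : K2 ρ ≤ P.sup K2 := Finset.le_sup hρP
    have hxX : x ∈ X ρ x := by
      refine ⟨hxa, fun i hi => ⟨le_trans hle (hxK i hi), ?_⟩, fun α _ => rfl⟩
      exact (Nat.mod_mod _ _).symm
    exact ⟨X ρ x, ⟨ρ, hρP, x, hxS, hxX, rfl⟩, hxX⟩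

end Pool.Agent.Helper87.TW
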